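import Pool.Agent.Run7.h477.RK.Iface

/-!
# Piece FLD of project RK (helper477): the fields
-/

set_option autoImplicit false

namespace Run7.h304.RK

open Run7.h477.RK

/-- piece FLD -/
theorem t_FLD : S_FLD := by
  have : Fact (Nat.Prime 2) := ⟨Nat.prime_two⟩
  refine ⟨GaloisField 2 4, inferInstance, inferInstance, inferInstance, ?_, fun n => ?_⟩
  · rw [GaloisField.card 2 4 (by norm_num)]
    norm_num
  have he : 2 * (4 * n + 2) ≠ 0 := by omega
  have hcard : Nat.card (GaloisField 2 (2 * (4 * n + 2))) = 2 ^ (2 * (4 * n + 2)) := GaloisField.card 2 _ he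
  have hj : Nonempty (GaloisField 2 4 →ₐ[ZMod 2] GaloisField 2 (2 * (4 * n + 2))) := by
    apply FiniteField.nonempty_algHom_of_finrank_dvd
    rw [GaloisField.finrank 2 (by norm_num), GaloisField.finrank 2 he]
    exact ⟨2 * n + 1, by ring⟩
  obtain ⟨j⟩ := hj
  have hU : Nat.card (GaloisField 2 (2 * (4 * n + 2)))ˣ = (2 ^ (4 * n + 2) - 1) * (2 ^ (4 * n + 2) + 1) := by
    have h1 := Nat.card_units (GaloisField 2 (2 * (4 * n + 2)))
    rw [h1, hcard]
    have h2 : 2 ^ (2 * (4 * n + 2)) = 2 ^ (4 * n + 2) * 2 ^ (4 * n + 2) := by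
      rw [← pow_add]
      congr 1
      ring
    rw [h2]
    have h3 : 1 ≤ 2 ^ (4 * n + 2) := Nat.one_le_two_pow
    obtain ⟨m, hm⟩ := Nat.exists_eq_add_of_le h3
    rw [hm]
    simp only [Nat.add_sub_cancel_left]
    have : (1 + m) * (1 + m) = m * (1 + m + 1) + 1 := by ring
    rw [this, Nat.add_sub_cancel]
  obtain ⟨g, hg⟩ := IsCyclic.exists_ofOrder_eq_natCard (α := (GaloisField 2 (2 * (4 * n + 2)))ˣ)
  refine ⟨GaloisField 2 (2 * (4 * n + 2)), inferInstance, inferInstance, inferInstance, 4 * n + 2,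
    j.toRingHom, g ^ (2 ^ (4 * n + 2) - 1), by omega, by omega, hcard, ?_⟩
  have h3 : 2 ≤ 2 ^ (4 * n + 2) := by
    calc 2 = 2 ^ 1 := by norm_num
      _ ≤ _ := Nat.pow_le_pow_right (by norm_num) (by omega)
  have h4 : 2 ^ (4 * n + 2) - 1 ≠ 0 := by omega
  rw [orderOf_pow_of_dvd h4 (by rw [hg, hU]; exact dvd_mul_right _ _), hg, hU]
  exact Nat.mul_div_cancel_left _ (Nat.pos_of_ne_zero h4)

end Run7.h304.RK
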